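import Pool.Agent.helper83.OD.Spec

set_option autoImplicit false

open Finset PowerSeries

noncomputable section

namespace Pool.Agent.OD

open Pool.Agent.EP

theorem R11_cop (p c d : ℕ) (hp : p % 24 = 5) (hd : d % 2 = 1) (h : 3 * c ^ 2 + 8 * d ^ 2 = 7 * p) :
    d.Coprime 6 := by
  have h2 : d.Coprime 2 := by
    rw [Nat.coprime_two_right]
    exact Nat.odd_iff.2 hd
  have h3 : d.Coprime 3 := by
    rw [Nat.coprime_comm, Nat.Prime.coprime_iff_not_dvd Nat.prime_three]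
    rintro ⟨k, rfl⟩
    have h4 : 3 * (c ^ 2 + 8 * (3 * k ^ 2)) = 7 * p := by rw [← h]; ring
    omega
  exact Nat.Coprime.mul_right h2 h3

theorem R11_mem (p c d : ℕ) (hp : p % 24 = 5) (hc : c % 2 = 1) (hd : d % 2 = 1)
    (h : 3 * c ^ 2 + 8 * d ^ 2 = 7 * p) :
    (c, d) ∈ (range (7 * p + 1) ×ˢ range (7 * p + 1)) ∧ c % 2 = 1 ∧ d.Coprime 6 ∧
      3 * c ^ 2 + 8 * d ^ 2 = 7 * p := by
  refine ⟨?_, hc, R11_cop p c d hp hd h, h⟩
  rw [mem_product, mem_range, mem_range]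
  constructor
  · change c < 7 * p + 1
    nlinarith [Nat.zero_le (d ^ 2), Nat.zero_le c]
  · change d < 7 * p + 1
    nlinarith [Nat.zero_le (c ^ 2), Nat.zero_le d]

theorem R11 (hT : TS_stmt) (hS : S7_stmt) (hV : V11_stmt) : R11_stmt := by
  classical
  intro p hp hp24
  obtain ⟨s, t, hs, ht, hpst⟩ := hT p hp hp24
  rw [hV (7 * p)]
  have hs0 : 0 < s := by omega
  have ht0 : 0 < t := by omega
  have hp3 : 3 < p := by omega
  obtain ⟨D1, hD1⟩ : ∃ D1 : ℕ, 3 * s + t = 2 * D1 := ⟨(3 * s + t) / 2, by omega⟩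
  obtain ⟨D2, hD2⟩ : ∃ D2 : ℕ, (3 * (s : ℤ) - t).natAbs = 2 * D2 :=
    ⟨(3 * (s : ℤ) - t).natAbs / 2, by omega⟩
  have hpar : D1 % 2 ≠ D2 % 2 := by omega
  have key : ∀ c d : ℕ, c % 2 = 1 → d.Coprime 6 → 3 * c ^ 2 + 8 * d ^ 2 = 7 * p →
      (c = ((s : ℤ) - 2 * t).natAbs ∧ d = D1) ∨ (c = s + 2 * t ∧ d = D2) := by
    intro c d hc hd h
    have hd0 : 0 < d := by
      rcases Nat.eq_zero_or_pos d with h0 | h0
      · rw [h0] at hd
        norm_num at hd
      · exact h0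
    rcases hS p s t hp hp3 hs0 ht0 hpst (c : ℤ) (2 * d : ℤ) (by omega) (by omega) (by
      have h1 : (3 * (c : ℤ) ^ 2 + 8 * (d : ℤ) ^ 2) = 7 * p := by exact_mod_cast h
      rw [← h1]; ring) with ⟨h1, h2⟩ | ⟨h1, h2⟩
    · left
      rw [← Int.natCast_natAbs] at h1
      constructor
      · omega
      · omega
    · right
      rw [← Int.natCast_natAbs] at h2
      constructor
      · omega
      · omega
  have q1 : 3 * (((s : ℤ) - 2 * t).natAbs) ^ 2 + 8 * D1 ^ 2 = 7 * p := by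
    zify
    rw [sq_abs]
    have h1 : (3 * (s : ℤ) + t) = 2 * D1 := by exact_mod_cast hD1
    have h2 : (p : ℤ) = 3 * s ^ 2 + 2 * t ^ 2 := by exact_mod_cast hpst
    have h3 : (8 : ℤ) * D1 ^ 2 = 2 * (3 * (s : ℤ) + t) ^ 2 := by rw [h1]; ring
    rw [h3, h2]; ring
  have q2 : 3 * (s + 2 * t) ^ 2 + 8 * D2 ^ 2 = 7 * p := by
    zify
    have h1 : ((3 * (s : ℤ) - t)) ^ 2 = (2 * D2) ^ 2 := by
      have h4 : (((3 * (s : ℤ) - t).natAbs : ℕ) : ℤ) = 2 * D2 := by exact_mod_cast hD2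
      rw [← h4, Int.natCast_natAbs, sq_abs]
    have h2 : (p : ℤ) = 3 * s ^ 2 + 2 * t ^ 2 := by exact_mod_cast hpst
    have h3 : (8 : ℤ) * D2 ^ 2 = 2 * (3 * (s : ℤ) - t) ^ 2 := by rw [h1]; ring
    rw [h3, h2]; ring
  have hone : ∀ S : Finset (ℕ × ℕ), (∀ x, x ∈ S ↔ x ∈ range (7 * p + 1) ×ˢ range (7 * p + 1) ∧
      x.1 % 2 = 1 ∧ x.2.Coprime 6 ∧ 3 * x.1 ^ 2 + 8 * x.2 ^ 2 = 7 * p) → S.card = 1 := by
    intro S hS
    rw [Finset.card_eq_one]
    by_cases h1 : D1 % 2 = 1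
    · refine ⟨(((s : ℤ) - 2 * t).natAbs, D1), ?_⟩
      ext ⟨c, d⟩
      rw [hS, mem_singleton]
      constructor
      · rintro ⟨_, hc, hd, h⟩
        rcases key c d hc hd h with ⟨a, b⟩ | ⟨a, b⟩
        · rw [a, b]
        · exfalso
          have h2 : D2 % 2 = 1 := by
            have := (Nat.Coprime.coprime_dvd_right (by norm_num : 2 ∣ 6) hd)
            rw [Nat.coprime_two_right, Nat.odd_iff] at this
            rw [← b]
            exact this
          omega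
      · intro h
        rw [Prod.mk.injEq] at h
        obtain ⟨rfl, rfl⟩ := h
        exact R11_mem p _ _ hp24 (by omega) h1 q1
    · refine ⟨(s + 2 * t, D2), ?_⟩
      ext ⟨c, d⟩
      rw [hS, mem_singleton]
      constructor
      · rintro ⟨_, hc, hd, h⟩
        rcases key c d hc hd h with ⟨a, b⟩ | ⟨a, b⟩
        · exfalso
          have h2 : D1 % 2 = 1 := by
            have := (Nat.Coprime.coprime_dvd_right (by norm_num : 2 ∣ 6) hd)
            rw [Nat.coprime_two_right, Nat.odd_iff] at this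
            rw [← b]
            exact this
          omega
        · rw [a, b]
      · intro h
        rw [Prod.mk.injEq] at h
        obtain ⟨rfl, rfl⟩ := h
        exact R11_mem p _ _ hp24 (by omega) (by omega) q2
  rw [hone _ (fun x => mem_filter)]
  rfl

end Pool.Agent.OD
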